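import Pool.Agent.MP_9ab903_nt.AN.B3
import Pool.Agent.MP_dfae13_nt.T.Q3
import Pool.Agent.MP_9ab903_nt.AN.Z

/-! ### part A1 -/

section

/-!
# [RQ] rationality of the quotient: the Galois action on the product of the `L`-values
-/

set_option autoImplicit false

open scoped ComplexConjugate
open Polynomial NumberField IsDedekindDomain
open scoped Classical

namespace CM27

/-- The data of an automorphism of `ℂ` which fixes `w`. -/
def GalData (m : ℕ) (σ : ℂ ≃+* ℂ) (u : Eis) : Prop :=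
  (∃ u' : Eis, ((3 * m : ℕ) : Eis) ∣ u * u' - 1) ∧ (3 : Eis) ∣ u - 1 ∧
    ∀ c : Eis, ptMap (σ : ℂ →+* ℂ) (pt (emb c / ((3 * m : ℕ) : ℂ))) =
      pt (emb (c * u) / ((3 * m : ℕ) : ℂ))

theorem rq_exists (m : ℕ) (hm : m ≠ 0) (σ : ℂ ≃+* ℂ) (hσ : σ w = w) : ∃ u, GalData m σ u := by
  obtain ⟨u, u', h1, h2, h3⟩ := gal_fix (3 * m) (by positivity) (dvd_mul_right 3 m) σ hσ
  exact ⟨u, ⟨u', h1⟩, h2, h3⟩

theorem rq_coprime (m : ℕ) (σ : ℂ ≃+* ℂ) (u : Eis) (h : GalData m σ u) :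
    IsCoprime u.norm (m : ℤ) := by
  obtain ⟨u', hu⟩ := h.1
  exact b2_coprime m u u' hu

theorem rq_TS (m : ℕ) (hm : Odd m) (σ : ℂ ≃+* ℂ) (u : Eis) (hu : GalData m σ u)
    (f : ℕ) (hf : f ∣ m) (χ : DirichletCharacter ℂ f) :
    σ (TS χ) * (χ.ringHomComp (σ : ℂ →+* ℂ) (u.norm : ZMod f)) =
      TS (χ.ringHomComp (σ : ℂ →+* ℂ)) := by
  have hm0 : m ≠ 0 := by rintro rfl; simp at hm
  obtain ⟨⟨u', huu⟩, hu3, hc⟩ := hu
  obtain ⟨g, hg⟩ := hf
  have hf0 : f ≠ 0 := by rintro rfl; simp at hg; exact hm0 hg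
  have hg0 : g ≠ 0 := by rintro rfl; simp at hg; exact hm0 hg
  have hf1 : (f : ℂ) ≠ 0 := by exact_mod_cast hf0
  have hg1 : (g : ℂ) ≠ 0 := by exact_mod_cast hg0
  set χ' := χ.ringHomComp (σ : ℂ →+* ℂ) with hχ'
  have hfu : ∃ u' : Eis, (f : Eis) ∣ u * u' - 1 := by
    refine ⟨u', dvd_trans ?_ huu⟩
    rw [hg]
    push_cast
    exact ⟨3 * g, by ring⟩
  have hdiv : ∀ c : Eis, emb (c * g) / ((3 * m : ℕ) : ℂ) = emb c / (3 * f) := by
    intro c
    rw [map_mul, map_natCast, hg]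
    push_cast
    field_simp
  let h : Eis → ℂ := fun c => chiN χ' c * lx (emb c / (3 * f))
  have hh : ∀ c d : Eis, Primary c → Primary d → (3 * f : Eis) ∣ c - d → h c = h d :=
    fun c d _ _ hcd => b2_h hf0 χ' c d hcd
  have hTS : TS χ' = ∑ i ∈ Finset.range f, ∑ j ∈ Finset.range f, h (cc i j) := rfl
  have hσ : ∀ c, σ (chiN χ c) = chiN χ' c := by
    intro c
    rfl
  have hprod : ∀ c : Eis, chiN χ' c * χ' ((u.norm : ℤ) : ZMod f) = chiN χ' (c * u) := by
    intro c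
    unfold chiN
    rw [b2_norm_mul, ← map_mul]
    push_cast
    rfl
  have hσTS : σ (TS χ) = ∑ i ∈ Finset.range f, ∑ j ∈ Finset.range f,
      chiN χ' (cc i j) * σ (lx (emb (cc i j) / (3 * f))) := by
    unfold TS
    rw [map_sum]
    apply Finset.sum_congr rfl
    intro i _
    rw [map_sum]
    apply Finset.sum_congr rfl
    intro j _
    rw [map_mul, hσ]
  rw [hTS, ← sum_mul f hf0 u hu3 hfu h hh, hσTS, Finset.sum_mul]
  apply Finset.sum_congr rfl
  intro i _
  rw [Finset.sum_mul]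
  apply Finset.sum_congr rfl
  intro j _
  have h2 : σ (lx (emb (cc i j) / (3 * f))) = lx (emb (cc i j * u) / (3 * f)) := by
    apply lx_ptMap (σ : ℂ →+* ℂ) _ _ (off_primary f hf0 _ (b2_primary_cc i j))
    have h3 := hc (cc i j * g)
    have h4 : cc i j * (g : Eis) * u = cc i j * u * g := by ring
    rw [h4, hdiv, hdiv] at h3
    exact h3
  show chiN χ' (cc i j) * σ (lx (emb (cc i j) / (3 * f))) * χ' ((u.norm : ℤ) : ZMod f) =
    chiN χ' (cc i j * u) * lx (emb (cc i j * u) / (3 * f))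
  rw [h2, ← hprod]
  ring

theorem rq_WW (m : ℕ) [NeZero m] (hm : Odd m) (σ : ℂ ≃+* ℂ) (u : Eis) (hu : GalData m σ u)
    (χ : DirichletCharacter ℂ m) :
    σ (WW χ) * χ.ringHomComp (σ : ℂ →+* ℂ) (u.norm : ZMod m) =
      WW (χ.ringHomComp (σ : ℂ →+* ℂ)) := by
  have ha := rq_coprime m σ u hu
  set ψ := χ.primitiveCharacter with hψ
  have h1 := b3_WW m χ.conductor_dvd_level (χ.ringHomComp (σ : ℂ →+* ℂ))
    (ψ.ringHomComp (σ : ℂ →+* ℂ)) (b3_conductor χ σ) (b3_comp_eq χ σ)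
  have h2 := rq_TS m hm σ u hu χ.conductor χ.conductor_dvd_level ψ
  have h3 : χ.ringHomComp (σ : ℂ →+* ℂ) (u.norm : ZMod m) =
      ψ.ringHomComp (σ : ℂ →+* ℂ) (u.norm : ZMod χ.conductor) := by
    conv_lhs => rw [b3_comp_eq χ σ]
    rw [DirichletCharacter.changeLevel_eq_cast_of_dvd' _ _ ha]
  have h4 : σ (WW χ) = (3 * χ.conductor : ℂ)⁻¹ *
      (2 + (ψ.ringHomComp (σ : ℂ →+* ℂ) 4)⁻¹)⁻¹ * σ (TS ψ) := by
    rw [WW, ← hψ, b3_comp_apply]
    simp only [map_mul, map_inv₀, map_add, map_natCast, map_ofNat]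
  rw [h1, h3, h4, ← h2]
  ring

/-- the product of the characters of `F` -/
noncomputable def rqE (m : ℕ) [NeZero m] (M : Type) [Field M] [NumberField M]
    [IsCyclotomicExtension {m} ℚ M] (F : IntermediateField ℚ M) (a : ZMod m) : ℂ :=
  ∏ χ ∈ chars m F, χ a

/-- the product of the algebraic parts of the `L`-values -/
noncomputable def rqP (m : ℕ) [NeZero m] (M : Type) [Field M] [NumberField M]
    [IsCyclotomicExtension {m} ℚ M] (F : IntermediateField ℚ M) : ℂ :=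
  ∏ χ ∈ chars m F, WW χ

theorem rq_P_gal (m : ℕ) [NeZero m] (hm : Odd m) (M : Type) [Field M] [NumberField M]
    [IsCyclotomicExtension {m} ℚ M] (F : IntermediateField ℚ M) (σ : ℂ ≃+* ℂ) (u : Eis)
    (hu : GalData m σ u) : σ (rqP m M F) * rqE m M F (u.norm : ZMod m) = rqP m M F := by
  have h1 : ∏ χ ∈ chars m F, (σ (WW χ) * χ.ringHomComp (σ : ℂ →+* ℂ) (u.norm : ZMod m)) =
      ∏ χ ∈ chars m F, WW (χ.ringHomComp (σ : ℂ →+* ℂ)) :=
    Finset.prod_congr rfl fun χ _ => rq_WW m hm σ u hu χ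
  rw [Finset.prod_mul_distrib] at h1
  have h2 := b3_prod_comp m M F σ (fun χ => χ (u.norm : ZMod m))
  have h3 := b3_prod_comp m M F σ (fun χ => WW χ)
  rw [h2, h3] at h1
  unfold rqP rqE
  rw [map_prod]
  exact h1

end CM27

end

/-! ### part A2 -/

section

/-!
# [RQ] comparison of the actions on the division points and on the roots of unity
-/

set_option autoImplicit false

open scoped ComplexConjugate
open Polynomial NumberField IsDedekindDomain
open scoped Classical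

namespace CM27

open CMT

section

variable (p : ℕ) [hp : Fact p.Prime] (hp2 : p ≠ 2)

/-- the quadratic character with complex values -/
noncomputable def rqChi : MulChar (ZMod p) ℂ :=
  (quadraticChar (ZMod p)).ringHomComp (Int.castRingHom ℂ)

/-- the quadratic Gauss sum -/
noncomputable def rqG : ℂ := gaussSum (rqChi p) (ZMod.stdAddChar (N := p))

theorem rqChi_apply (x : ZMod p) : rqChi p x = (quadraticChar (ZMod p) x : ℂ) := rfl

include hp2 in
theorem rqG_sq : rqG p ^ 2 = (-1) ^ (p / 2) * p := by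
  have hchar : ringChar (ZMod p) ≠ 2 := by
    rw [ZMod.ringChar_zmod_n]; exact hp2
  have h1 : rqChi p ≠ 1 := by
    intro h
    apply quadraticChar_ne_one hchar
    ext x
    have h2 := congrArg (fun χ : MulChar (ZMod p) ℂ => χ (x : ZMod p)) h
    simp only [rqChi_apply, MulChar.one_apply_coe] at h2
    rw [MulChar.one_apply_coe]
    exact_mod_cast h2
  have h2 : (rqChi p).IsQuadratic := (quadraticChar_isQuadratic (ZMod p)).comp _
  rw [rqG, gaussSum_sq h1 h2 (ZMod.isPrimitive_stdAddChar p), rqChi_apply,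
    quadraticChar_neg_one hchar, ZMod.card, ZMod.χ₄_eq_neg_one_pow (hp.out.mod_two_eq_one_iff_ne_two.2 hp2)]
  push_cast
  rfl

/-- the action on the Gauss sum -/
theorem rqG_gal (σ : ℂ ≃+* ℂ) (a : (ZMod p)ˣ)
    (ha : ∀ x : ZMod p, σ (ZMod.stdAddChar x) = ZMod.stdAddChar ((a : ZMod p) * x)) :
    rqChi p a * σ (rqG p) = rqG p := by
  have h1 : σ (rqG p) = gaussSum (rqChi p) ((ZMod.stdAddChar (N := p)).mulShift (a : ZMod p)) := by
    rw [rqG, gaussSum, gaussSum, map_sum]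
    refine Finset.sum_congr rfl fun x _ => ?_
    rw [map_mul, ha, AddChar.mulShift_apply, rqChi_apply, map_intCast]
  rw [h1, gaussSum_mulShift]
  rfl

end

section

variable (b : Eis) (p : ℕ) [hp : Fact p.Prime] (hb : b.norm = p)

include hb in
theorem rq_qr_norm (u : Eis) : qr b u * qr b (star u) = legendreSym p u.norm := by
  obtain ⟨m₁, h1⟩ := q1_exists_int b p hb u
  obtain ⟨m₂, h2⟩ := q1_exists_int b p hb (star u)
  rw [q2_qr b p hb u m₁ h1, q2_qr b p hb (star u) m₂ h2, ← legendreSym.mul]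
  have h3 : b ∣ ((u.norm - m₁ * m₂ : ℤ) : Eis) := by
    have h4 : ((u.norm - m₁ * m₂ : ℤ) : Eis) = (u - (m₁ : Eis)) * star u +
        (m₁ : Eis) * (star u - (m₂ : Eis)) := by
      push_cast
      rw [← a3_mul_star]
      ring
    rw [h4]
    exact dvd_add (h1.mul_right _) (h2.mul_left _)
  rw [q2_dvd_int b p hb] at h3
  have h4 : ((u.norm : ℤ) : ZMod p) = ((m₁ * m₂ : ℤ) : ZMod p) := by
    rw [← sub_eq_zero, ← Int.cast_sub, ZMod.intCast_zmod_eq_zero_iff_dvd]
    exact h3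
  unfold legendreSym
  rw [h4]

include hb in
/-- `Y Ȳ` times the Gauss sum is in `ℚ(w)`. -/
theorem rq_YG (hp2 : p ≠ 2) : ∃ s : ℂ, (s = 1 ∨ s = -1) ∧
    (q1Y b p * conj (q1Y b p)) * rqG p = s * ((2 * w + 1) ^ (3 * (p / 2)) / p) := by
  have hw : (2 * w + 1) ^ 2 = -3 := by
    have := w_sq
    linear_combination 4 * this
  have h1 := q1Y_norm b p hb hp2
  have hY : q1Y b p * conj (q1Y b p) = ((‖q1Y b p‖ ^ 2 : ℝ) : ℂ) := by
    rw [Complex.mul_conj, Complex.normSq_eq_norm_sq]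
  have hp0 : (p : ℂ) ≠ 0 := by exact_mod_cast hp.out.ne_zero
  have h2 : ((q1Y b p * conj (q1Y b p)) * rqG p) ^ 2 = ((2 * w + 1) ^ (3 * (p / 2)) / p) ^ 2 := by
    have h3 : ((‖q1Y b p‖ ^ 2 : ℝ) : ℂ) ^ 2 * (p : ℂ) ^ 3 = 27 ^ (p / 2) := by
      have h4 := congrArg (fun t : ℝ => (t : ℂ)) h1
      push_cast at h4 ⊢
      rw [← h4]
      ring
    have h4 : ((2 * w + 1) ^ (3 * (p / 2))) ^ 2 = (-27 : ℂ) ^ (p / 2) := by
      rw [← pow_mul, show 3 * (p / 2) * 2 = 2 * (3 * (p / 2)) by ring, pow_mul, hw, pow_mul]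
      norm_num
    rw [mul_pow, rqG_sq p hp2, hY, div_pow, h4]
    have h5 : (-27 : ℂ) ^ (p / 2) = (-1) ^ (p / 2) * 27 ^ (p / 2) := by
      rw [← mul_pow]; norm_num
    rw [h5, ← h3]
    field_simp
  rcases sq_eq_sq_iff_eq_or_eq_neg.1 h2 with h3 | h3
  · exact ⟨1, Or.inl rfl, by rw [h3, one_mul]⟩
  · exact ⟨-1, Or.inr rfl, by rw [h3]; ring⟩

end

end CM27

end

/-! ### part A3 -/

section

/-!
# [RQ] the norm of `u` and the action on the roots of unity agree up to squares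
-/

set_option autoImplicit false

open scoped ComplexConjugate
open Polynomial NumberField IsDedekindDomain
open scoped Classical

namespace CM27

open CMT

theorem rq_pt (m : ℕ) (hm0 : m ≠ 0) (σ : ℂ ≃+* ℂ) (u : Eis) (hu : GalData m σ u) (b : Eis)
    (hb : b ∣ ((3 * m : ℕ) : Eis)) (c : Eis) :
    ptMap (σ : ℂ →+* ℂ) (pt (emb c / emb b)) = pt (emb (c * u) / emb b) := by
  obtain ⟨k, hk⟩ := hb
  have hN0 : ((3 * m : ℕ) : ℂ) ≠ 0 := by
    have : 3 * m ≠ 0 := by positivity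
    exact_mod_cast this
  have hbk : emb b * emb k = ((3 * m : ℕ) : ℂ) := by
    rw [← map_mul, ← hk, map_natCast]
  have hb0 : emb b ≠ 0 := by
    intro h0
    rw [h0, zero_mul] at hbk
    exact hN0 hbk.symm
  have hk0 : emb k ≠ 0 := by
    intro h0
    rw [h0, mul_zero] at hbk
    exact hN0 hbk.symm
  have h2 : ∀ c : Eis, emb (c * k) / ((3 * m : ℕ) : ℂ) = emb c / emb b := by
    intro c
    rw [← hbk, map_mul]
    field_simp
  have h3 := hu.2.2 (c * k)
  have h4 : c * k * u = c * u * k := by ring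
  rw [h4, h2, h2] at h3
  exact h3

/-- the action on `Y Ȳ` -/
theorem rq_YY (m : ℕ) (hm0 : m ≠ 0) (σ : ℂ ≃+* ℂ) (u : Eis) (hu : GalData m σ u) (p : ℕ)
    [hp : Fact p.Prime] (hp2 : p ≠ 2) (hpm : p ∣ m) (b : Eis) (hb : b.norm = p) :
    σ (q1Y b p * conj (q1Y b p)) = (legendreSym p u.norm : ℂ) * (q1Y b p * conj (q1Y b p)) := by
  have hbp : b * star b = (p : Eis) := by
    rw [a3_mul_star, hb]; simp
  have hpm' : (p : Eis) ∣ ((3 * m : ℕ) : Eis) := by
    obtain ⟨k, hk⟩ := hpm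
    refine ⟨3 * k, ?_⟩
    rw [hk]
    push_cast
    ring
  have e1 := q2_gal b p hb hp2 (σ : ℂ →+* ℂ) u
    (rq_pt m hm0 σ u hu b ((Dvd.intro _ hbp).trans hpm'))
  have hns : (star b).norm = p := by rw [QuadraticAlgebra.norm_star, hb]
  have e2 := q2_gal (star b) p hns hp2 (σ : ℂ →+* ℂ) u
    (rq_pt m hm0 σ u hu (star b) ((Dvd.intro_left _ hbp).trans hpm'))
  rw [q2_conj b p hb, q3_qr_star b p hb, map_mul, map_pow, map_neg, map_one] at e2
  have e3 : (σ : ℂ →+* ℂ) (conj (q1Y b p)) = (qr b (star u) : ℂ) * conj (q1Y b p) := by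
    have h2 : ((-1 : ℂ) ^ (p / 2)) ≠ 0 := pow_ne_zero _ (by norm_num)
    apply mul_left_cancel₀ h2
    rw [e2]
    ring
  change (σ : ℂ →+* ℂ) _ = _
  rw [map_mul, e1, e3, ← rq_qr_norm b p hb u]
  push_cast
  ring

theorem rq_std (m : ℕ) [NeZero m] (σ : ℂ ≃+* ℂ) (a : (ZMod m)ˣ)
    (ha : ∀ η : ℂ, η ^ m = 1 → σ η = η ^ (a : ZMod m).val) (p : ℕ) [hp : Fact p.Prime]
    (hpm : p ∣ m) (x : ZMod p) : σ (ZMod.stdAddChar x) =
      ZMod.stdAddChar (((ZMod.unitsMap hpm a : (ZMod p)ˣ) : ZMod p) * x) := by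
  have h1 : (ZMod.stdAddChar x) ^ m = 1 := by
    rw [← AddChar.map_nsmul_eq_pow]
    have : m • x = 0 := by
      rw [nsmul_eq_mul, (ZMod.natCast_eq_zero_iff m p).2 hpm, zero_mul]
    rw [this, AddChar.map_zero_eq_one]
  rw [ha _ h1, ← AddChar.map_nsmul_eq_pow, nsmul_eq_mul]
  congr 2
  rw [ZMod.unitsMap_def]
  show (((a : ZMod m).val : ℕ) : ZMod p) = ZMod.castHom hpm (ZMod p) (a : ZMod m)
  rw [ZMod.castHom_apply, ZMod.natCast_val]

theorem rq_leg (m : ℕ) [NeZero m] (hm : GoodLevel m) (σ : ℂ ≃+* ℂ) (hσ : σ w = w) (u : Eis)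
    (hu : GalData m σ u) (a : (ZMod m)ˣ)
    (ha : ∀ η : ℂ, η ^ m = 1 → σ η = η ^ (a : ZMod m).val) (p : ℕ) [hp : Fact p.Prime]
    (hpm : p ∣ m) : legendreSym p u.norm =
      quadraticChar (ZMod p) ((ZMod.unitsMap hpm a : (ZMod p)ˣ) : ZMod p) := by
  have hm0 : m ≠ 0 := hm.1.ne_zero
  have hg := hm.2 p hp.out hpm
  have hp2 : p ≠ 2 := by
    rintro rfl
    have := hg.2.1
    omega
  obtain ⟨b, hbprim, hb⟩ := exists_primary_prime p hp.out hg.2.1
  obtain ⟨s, hs, hYG⟩ := rq_YG b p hb hp2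
  have e1 := rq_YY m hm0 σ u hu p hp2 hpm b hb
  have e2 := rqG_gal p σ (ZMod.unitsMap hpm a) (rq_std m σ a ha p hpm)
  have hw : (2 * w + 1) ^ 2 = -3 := by
    have := w_sq
    linear_combination 4 * this
  have hw0 : (2 * w + 1 : ℂ) ≠ 0 := by
    intro h0
    rw [h0] at hw
    norm_num at hw
  have hp0 : (p : ℂ) ≠ 0 := by exact_mod_cast hp.out.ne_zero
  have hs0 : s ≠ 0 := by
    rcases hs with rfl | rfl <;> norm_num
  have hne : (q1Y b p * conj (q1Y b p)) * rqG p ≠ 0 := by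
    rw [hYG]
    exact mul_ne_zero hs0 (div_ne_zero (pow_ne_zero _ hw0) hp0)
  have hfix : σ ((q1Y b p * conj (q1Y b p)) * rqG p) = (q1Y b p * conj (q1Y b p)) * rqG p := by
    rw [hYG]
    have hσs : σ s = s := by rcases hs with rfl | rfl <;> simp
    simp only [map_mul, map_div₀, map_pow, map_add, map_one, map_natCast, map_ofNat, hσ, hσs]
  rw [map_mul, e1] at hfix
  have h3 : (q1Y b p * conj (q1Y b p)) ≠ 0 := left_ne_zero_of_mul hne
  have h4 : (legendreSym p u.norm : ℂ) * σ (rqG p) = rqG p := by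
    apply mul_left_cancel₀ h3
    rw [← hfix]
    ring
  have h5 : σ (rqG p) ≠ 0 := by
    intro h0
    rw [h0, mul_zero] at h4
    exact right_ne_zero_of_mul hne h4.symm
  have h6 : (legendreSym p u.norm : ℂ) =
      rqChi p ((ZMod.unitsMap hpm a : (ZMod p)ˣ) : ZMod p) := by
    apply mul_right_cancel₀ h5
    rw [h4, e2]
  rw [rqChi_apply] at h6
  exact_mod_cast h6

end CM27

end

/-! ### part A4 -/

section

/-!
# [RQ] the action on the square root of the discriminant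
-/

set_option autoImplicit false

open scoped ComplexConjugate
open Polynomial NumberField IsDedekindDomain
open scoped Classical

namespace CM27

section sign

variable (m : ℕ) [NeZero m] (M : Type) [Field M] [NumberField M]
    [IsCyclotomicExtension {m} ℚ M] (F : IntermediateField ℚ M)

/-- the permutation of the embeddings -/
noncomputable def rqPerm (s : ℂ ≃ₐ[ℚ] ℂ) : Equiv.Perm (F →ₐ[ℚ] ℂ) where
  toFun φ := (s : ℂ →ₐ[ℚ] ℂ).comp φ
  invFun φ := (s.symm : ℂ →ₐ[ℚ] ℂ).comp φ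
  left_inv φ := by ext x; simp
  right_inv φ := by ext x; simp

/-- restriction of embeddings -/
noncomputable def rqRes (j : M →ₐ[ℚ] ℂ) (g : Gal(M/ℚ)) : F →ₐ[ℚ] ℂ :=
  (j.comp (g : M →ₐ[ℚ] M)).comp F.val

theorem rqRes_surj [IsGalois ℚ M] (j : M →ₐ[ℚ] ℂ) (φ : F →ₐ[ℚ] ℂ) : ∃ g, rqRes M F j g = φ := by
  -- extend `φ` to `M`
  let _ : Algebra F ℂ := (φ : F →+* ℂ).toAlgebra
  have : IsScalarTower ℚ F ℂ := IsScalarTower.of_algebraMap_eq fun q => (φ.commutes q).symm
  let ψ : M →ₐ[F] ℂ := IsAlgClosed.lift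
  let ψ' : M →ₐ[ℚ] ℂ := ψ.restrictScalars ℚ
  -- compare with `j`
  let _ : Algebra M ℂ := (j : M →+* ℂ).toAlgebra
  have : IsScalarTower ℚ M ℂ := IsScalarTower.of_algebraMap_eq fun q => (j.commutes q).symm
  refine ⟨ψ'.restrictNormal' M, ?_⟩
  ext x
  show j ((ψ'.restrictNormal' M) (x : M)) = φ x
  have h1 : algebraMap M ℂ ((ψ'.restrictNormal' M) (x : M)) = ψ' (x : M) :=
    ψ'.restrictNormal_commutes M (x : M)
  have h2 : ψ' (x : M) = φ x := ψ.commutes x
  rw [← h2, ← h1]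
  rfl

theorem rqRes_chi (j : M →ₐ[ℚ] ℂ) (g h : Gal(M/ℚ)) (hgh : rqRes M F j g = rqRes M F j h)
    (χ : DirichletCharacter ℂ m) (hχ : χ ∈ chars m F) :
    χ ((IsCyclotomicExtension.Rat.galEquivZMod m M g : (ZMod m)ˣ) : ZMod m) =
      χ ((IsCyclotomicExtension.Rat.galEquivZMod m M h : (ZMod m)ˣ) : ZMod m) := by
  have h1 : h⁻¹ * g ∈ F.fixingSubgroup := by
    rw [IntermediateField.mem_fixingSubgroup_iff]
    intro x hx
    have h2 := congrArg (fun f : F →ₐ[ℚ] ℂ => f ⟨x, hx⟩) hgh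
    have h3 : j (g x) = j (h x) := h2
    have h4 : g x = h x := j.injective h3
    show h⁻¹ (g x) = x
    rw [h4]
    exact h.symm_apply_apply x
  have h5 := (b3_mem F χ).1 hχ _ h1
  rw [map_mul, Units.val_mul, map_mul, map_inv] at h5
  have h6 : χ ((IsCyclotomicExtension.Rat.galEquivZMod m M h : (ZMod m)ˣ) : ZMod m) *
      χ (((IsCyclotomicExtension.Rat.galEquivZMod m M h)⁻¹ : (ZMod m)ˣ) : ZMod m) = 1 := by
    rw [← map_mul, Units.mul_inv, map_one]
  calc χ ((IsCyclotomicExtension.Rat.galEquivZMod m M g : (ZMod m)ˣ) : ZMod m)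
      = χ ((IsCyclotomicExtension.Rat.galEquivZMod m M h : (ZMod m)ˣ) : ZMod m) *
        (χ (((IsCyclotomicExtension.Rat.galEquivZMod m M h)⁻¹ : (ZMod m)ˣ) : ZMod m) *
        χ ((IsCyclotomicExtension.Rat.galEquivZMod m M g : (ZMod m)ˣ) : ZMod m)) := by
          rw [← mul_assoc, h6, one_mul]
    _ = _ := by rw [h5, mul_one]

/-- **The sign of the permutation of the embeddings.** -/
theorem rq_sign (j : M →ₐ[ℚ] ℂ) (s : ℂ ≃ₐ[ℚ] ℂ) (g : Gal(M/ℚ))
    (hg : ∀ x, s (j x) = j (g x)) :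
    ((Equiv.Perm.sign (rqPerm M F s) : ℤ) : ℂ) =
      rqE m M F ((IsCyclotomicExtension.Rat.galEquivZMod m M g : (ZMod m)ˣ) : ZMod m) := by
  have : IsGalois ℚ M := IsCyclotomicExtension.isGalois {m} ℚ M
  choose G hG using rqRes_surj M F j
  have hcard : Fintype.card (F →ₐ[ℚ] ℂ) = Fintype.card {χ // χ ∈ chars m F} := by
    rw [Fintype.card_coe, card_chars m M F, AlgHom.card]
  obtain ⟨e⟩ : Nonempty ((F →ₐ[ℚ] ℂ) ≃ {χ // χ ∈ chars m F}) := ⟨Fintype.equivOfCardEq hcard⟩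
  let A : Matrix (F →ₐ[ℚ] ℂ) (F →ₐ[ℚ] ℂ) ℂ := fun x φ =>
    (e x).1 ((IsCyclotomicExtension.Rat.galEquivZMod m M (G φ) : (ZMod m)ˣ) : ZMod m)
  set a : ZMod m := ((IsCyclotomicExtension.Rat.galEquivZMod m M g : (ZMod m)ˣ) : ZMod m) with ha
  have h1 : A.submatrix id (rqPerm M F s) = Matrix.diagonal (fun x => (e x).1 a) * A := by
    ext x φ
    rw [Matrix.diagonal_mul, Matrix.submatrix_apply, id]
    show (e x).1 ((IsCyclotomicExtension.Rat.galEquivZMod m M (G (rqPerm M F s φ)) : (ZMod m)ˣ) :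
      ZMod m) = (e x).1 a *
        (e x).1 ((IsCyclotomicExtension.Rat.galEquivZMod m M (G φ) : (ZMod m)ˣ) : ZMod m)
    have h2 : rqRes M F j (G (rqPerm M F s φ)) = rqRes M F j (g * G φ) := by
      rw [hG]
      ext y
      have h3 := congrArg (fun f : F →ₐ[ℚ] ℂ => f y) (hG φ)
      have h4 : j (G φ (y : M)) = φ y := h3
      show s (φ y) = j (g (G φ (y : M)))
      rw [← h4, hg]
    rw [rqRes_chi m M F j _ _ h2 _ (e x).2, map_mul, Units.val_mul, map_mul]
  have hdet : A.det ≠ 0 := by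
    let T : ((F →ₐ[ℚ] ℂ) → ℂ) →ₗ[ℂ] ((ZMod m)ˣ → ℂ) :=
      { toFun := fun v u => v (rqRes M F j ((IsCyclotomicExtension.Rat.galEquivZMod m M).symm u))
        map_add' := fun _ _ => rfl
        map_smul' := fun _ _ => rfl }
    let f : (F →ₐ[ℚ] ℂ) → ((ZMod m)ˣ →* ℂ) := fun x =>
      (e x).1.toMonoidHom.comp (Units.coeHom (ZMod m))
    have hf : Function.Injective f := by
      intro x y hxy
      apply e.injective
      apply Subtype.ext
      apply MulChar.ext
      intro u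
      exact congrArg (fun k : (ZMod m)ˣ →* ℂ => k u) hxy
    have hli : LinearIndependent ℂ (fun x => A x) := by
      apply LinearIndependent.of_comp T
      have h5 : T ∘ (fun x => A x) = (fun k : (ZMod m)ˣ →* ℂ => (k : (ZMod m)ˣ → ℂ)) ∘ f := by
        funext x u
        show (e x).1 ((IsCyclotomicExtension.Rat.galEquivZMod m M
          (G (rqRes M F j ((IsCyclotomicExtension.Rat.galEquivZMod m M).symm u))) : (ZMod m)ˣ) :
            ZMod m) = (e x).1 (u : ZMod m)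
        rw [rqRes_chi m M F j _ _ (hG _) _ (e x).2, MulEquiv.apply_symm_apply]
      rw [h5]
      exact (linearIndependent_monoidHom (ZMod m)ˣ ℂ).comp f hf
    have h6 : IsUnit A := Matrix.linearIndependent_rows_iff_isUnit.1 hli
    exact ((Matrix.isUnit_iff_isUnit_det A).1 h6).ne_zero
  have h2 := congrArg Matrix.det h1
  rw [Matrix.det_permute', Matrix.det_mul, Matrix.det_diagonal] at h2
  have h3 := mul_right_cancel₀ hdet h2
  rw [h3, rqE]
  rw [← Finset.prod_coe_sort (chars m F)]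
  exact Fintype.prod_equiv e _ _ fun x => rfl

end sign

end CM27

end

/-! ### part A5 -/

section

/-!
# [RQ] the action on the square root of the discriminant, continued
-/

set_option autoImplicit false

open scoped ComplexConjugate
open Polynomial NumberField IsDedekindDomain
open scoped Classical

namespace CM27

/-- A square root of the discriminant and the Galois action on it. -/
theorem rq_delta (M : Type) [Field M] [NumberField M] (F : IntermediateField ℚ M) :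
    ∃ δ : ℂ, δ ^ 2 = (discr F : ℂ) ∧ ∀ s : ℂ ≃ₐ[ℚ] ℂ,
      s δ = ((Equiv.Perm.sign (rqPerm M F s) : ℤ) : ℂ) * δ := by
  obtain ⟨e⟩ : Nonempty (Module.Free.ChooseBasisIndex ℤ (𝓞 F) ≃ (F →ₐ[ℚ] ℂ)) := by
    refine ⟨Fintype.equivOfCardEq ?_⟩
    rw [AlgHom.card, Module.finrank_eq_card_basis (integralBasis F)]
  let A : Matrix (Module.Free.ChooseBasisIndex ℤ (𝓞 F)) (Module.Free.ChooseBasisIndex ℤ (𝓞 F)) ℂ :=
    Algebra.embeddingsMatrixReindex ℚ ℂ (integralBasis F) e
  have hA : ∀ i k, A i k = e k (integralBasis F i) := fun i k => rfl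
  refine ⟨A.det, ?_, fun s => ?_⟩
  · rw [← Algebra.discr_eq_det_embeddingsMatrixReindex_pow_two ℚ ℂ (integralBasis F) e, ← coe_discr]
    simp
  · let π : Equiv.Perm (Module.Free.ChooseBasisIndex ℤ (𝓞 F)) :=
      (e.trans (rqPerm M F s)).trans e.symm
    have h1 : s A.det = (A.submatrix id π).det := by
      have h2 : s A.det = ((s : ℂ →+* ℂ).mapMatrix A).det := RingHom.map_det (s : ℂ →+* ℂ) A
      rw [h2]
      congr 1
      ext i k
      rw [RingHom.mapMatrix_apply, Matrix.map_apply, Matrix.submatrix_apply, hA, hA]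
      show s (e k (integralBasis F i)) = e (e.symm (rqPerm M F s (e k))) (integralBasis F i)
      rw [Equiv.apply_symm_apply]
      rfl
    have h3 : Equiv.Perm.sign π = Equiv.Perm.sign (rqPerm M F s) := by
      have : π = e.symm.permCongr (rqPerm M F s) := by
        ext x
        rfl
      rw [this, Equiv.Perm.sign_permCongr]
    rw [h1, Matrix.det_permute', h3]

/-- An integer which is a square modulo all prime factors of a squarefree number `m` is a square
modulo `m`. -/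
theorem rq_crt (m : ℕ) : Squarefree m → ∀ t : ℤ, (∀ p : ℕ, p.Prime → p ∣ m →
    IsSquare (t : ZMod p)) → IsSquare (t : ZMod m) := by
  induction m using Nat.recOnPosPrimePosCoprime with
  | prime_pow p n hp hn =>
    intro hsq t h
    have h1 : n = 1 := by
      rcases Nat.lt_or_ge 1 n with h2 | h2
      · exfalso
        have h3 : p * p ∣ p ^ n := by
          rw [← sq]
          exact pow_dvd_pow p h2
        exact hp.not_isUnit (hsq p h3)
      · omega
    subst h1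
    have h2 := h p hp (by rw [pow_one])
    rw [pow_one]
    exact h2
  | zero => intro h; exact absurd rfl h.ne_zero
  | one =>
    intro _ t _
    exact ⟨0, Subsingleton.elim _ _⟩
  | coprime a b _ _ hab ha hb =>
    intro hsq t h
    obtain ⟨x, hx⟩ := ha hsq.of_mul_left t fun p hp hpa => h p hp (hpa.mul_right b)
    obtain ⟨y, hy⟩ := hb hsq.of_mul_right t fun p hp hpb => h p hp (hpb.mul_left a)
    have h1 : IsSquare ((t : ZMod a × ZMod b)) := by
      refine ⟨(x, y), ?_⟩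
      apply Prod.ext
      · simpa using hx
      · simpa using hy
    have h2 := h1.map (ZMod.chineseRemainder hab).symm
    simpa using h2

variable (m : ℕ) [NeZero m] (M : Type) [Field M] [NumberField M]
    [IsCyclotomicExtension {m} ℚ M] (F : IntermediateField ℚ M)

theorem rqE_mul (a b : ZMod m) : rqE m M F (a * b) = rqE m M F a * rqE m M F b := by
  unfold rqE
  rw [← Finset.prod_mul_distrib]
  exact Finset.prod_congr rfl fun χ _ => map_mul _ _ _

theorem rqE_sq (a : (ZMod m)ˣ) : rqE m M F a * rqE m M F a = 1 := by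
  have h := prod_sq_one m M F a
  rw [Finset.prod_pow] at h
  unfold rqE
  rw [← sq]
  exact h

/-- The comparison of the two actions. -/
theorem rqE_eq (hm : GoodLevel m) (σ : ℂ ≃+* ℂ) (hσ : σ w = w) (u : Eis)
    (hu : GalData m σ u) (a : (ZMod m)ˣ)
    (ha : ∀ η : ℂ, η ^ m = 1 → σ η = η ^ (a : ZMod m).val) :
    rqE m M F (u.norm : ZMod m) = rqE m M F a := by
  have hcop := rq_coprime m σ u hu
  set n : (ZMod m)ˣ := ZMod.unitOfIsCoprime u.norm hcop with hn
  have hnv : (n : ZMod m) = (u.norm : ZMod m) := ZMod.coe_unitOfIsCoprime _ _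
  obtain ⟨t, ht⟩ : ∃ t : ℤ, (t : ZMod m) = ((n * a : (ZMod m)ˣ) : ZMod m) :=
    ⟨((n * a : (ZMod m)ˣ) : ZMod m).val, by simp⟩
  have hsq : IsSquare (t : ZMod m) := by
    apply rq_crt m hm.1
    intro p hp hpm
    haveI : Fact p.Prime := ⟨hp⟩
    have h1 := rq_leg m hm σ hσ u hu a ha p hpm
    have h2 : (t : ZMod p) = (u.norm : ZMod p) * ((ZMod.unitsMap hpm a : (ZMod p)ˣ) : ZMod p) := by
      have h3 := congrArg (ZMod.castHom hpm (ZMod p)) ht
      rw [map_intCast, Units.val_mul, map_mul, hnv, map_intCast] at h3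
      rw [h3]
      rfl
    have h4 : ((ZMod.unitsMap hpm a : (ZMod p)ˣ) : ZMod p) ≠ 0 := Units.ne_zero _
    have h5 : quadraticChar (ZMod p) (t : ZMod p) = 1 := by
      rw [h2, map_mul]
      have h6 : quadraticChar (ZMod p) (u.norm : ZMod p) = legendreSym p u.norm := rfl
      rw [h6, h1, ← map_mul, ← sq, quadraticChar_sq_one' h4]
    by_cases h0 : (t : ZMod p) = 0
    · rw [h0]; exact IsSquare.zero
    · exact (quadraticChar_one_iff_isSquare h0).1 h5
  obtain ⟨s, hs⟩ := hsq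
  rw [ht] at hs
  have hsu : IsUnit s := by
    have : IsUnit (s * s) := by rw [← hs]; exact (n * a).isUnit
    exact isUnit_of_mul_isUnit_left this
  obtain ⟨s', rfl⟩ := hsu
  have h1 : rqE m M F ((n * a : (ZMod m)ˣ) : ZMod m) = 1 := by
    rw [hs, rqE_mul, rqE_sq]
  rw [Units.val_mul, rqE_mul, hnv] at h1
  have h2 := rqE_sq m M F a
  calc rqE m M F (u.norm : ZMod m) = rqE m M F (u.norm : ZMod m) * (rqE m M F a * rqE m M F a) := by
        rw [h2, mul_one]
    _ = rqE m M F (u.norm : ZMod m) * rqE m M F a * rqE m M F a := by ring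
    _ = rqE m M F a := by rw [h1, one_mul]

end CM27

end

/-! ### part A6 -/

section

/-!
# [RQ] complex conjugation, and the main theorem
-/

set_option autoImplicit false

open scoped ComplexConjugate
open Polynomial NumberField IsDedekindDomain
open scoped Classical

namespace CM27

theorem rq_lx_conj (z : ℂ) (hz : Off z) : conj (lx z) = - lx (conj z) := by
  rw [← lx_neg]
  exact lx_ptMap (starRingEnd ℂ) z (- conj z) hz (ptMap_conj z)

/-- complex conjugation as an automorphism -/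
noncomputable abbrev cj : ℂ ≃+* ℂ := starRingAut

theorem cj_apply (z : ℂ) : cj z = conj z := rfl

theorem rq_TS_conj (f : ℕ) (hf0 : f ≠ 0) (χ : DirichletCharacter ℂ f) :
    conj (TS χ) = - TS (χ.ringHomComp (cj : ℂ →+* ℂ)) := by
  set χ' := χ.ringHomComp (cj : ℂ →+* ℂ) with hχ'
  let h : Eis → ℂ := fun c => chiN χ' c * lx (emb c / (3 * f))
  have hh : ∀ c d : Eis, Primary c → Primary d → (3 * f : Eis) ∣ c - d → h c = h d :=
    fun c d _ _ hcd => b2_h hf0 χ' c d hcd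
  have hTS : TS χ' = ∑ i ∈ Finset.range f, ∑ j ∈ Finset.range f, h (cc i j) := rfl
  rw [hTS, ← sum_star f hf0 h hh, ← Finset.sum_neg_distrib]
  unfold TS
  rw [map_sum]
  refine Finset.sum_congr rfl fun i _ => ?_
  rw [map_sum, ← Finset.sum_neg_distrib]
  refine Finset.sum_congr rfl fun j _ => ?_
  rw [map_mul, rq_lx_conj _ (off_primary f hf0 _ (b2_primary_cc i j))]
  show conj (chiN χ (cc i j)) * -lx (conj (emb (cc i j) / (3 * f))) =
    -(chiN χ' (star (cc i j)) * lx (emb (star (cc i j)) / (3 * f)))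
  have h6 : chiN χ' (star (cc i j)) = conj (chiN χ (cc i j)) := by
    unfold chiN
    rw [b2_norm_star]
    rfl
  have h7 : conj (emb (cc i j) / (3 * f)) = emb (star (cc i j)) / (3 * f) := by
    rw [emb_star, map_div₀, map_mul, Complex.conj_natCast, map_ofNat]
  rw [h6, h7]
  ring

theorem rq_WW_conj (m : ℕ) [NeZero m] (χ : DirichletCharacter ℂ m) :
    conj (WW χ) = - WW (χ.ringHomComp (cj : ℂ →+* ℂ)) := by
  set ψ := χ.primitiveCharacter with hψ
  have h1 := b3_WW m χ.conductor_dvd_level (χ.ringHomComp (cj : ℂ →+* ℂ))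
    (ψ.ringHomComp (cj : ℂ →+* ℂ)) (b3_conductor χ cj) (b3_comp_eq χ cj)
  have hc0 : χ.conductor ≠ 0 := fun h0 => NeZero.ne m
    (Nat.eq_zero_of_zero_dvd (h0 ▸ χ.conductor_dvd_level))
  have h2 := rq_TS_conj χ.conductor hc0 ψ
  have h4 : conj (WW χ) = (3 * χ.conductor : ℂ)⁻¹ *
      (2 + (ψ.ringHomComp (cj : ℂ →+* ℂ) 4)⁻¹)⁻¹ * conj (TS ψ) := by
    rw [WW, ← hψ, b3_comp_apply, cj_apply]
    simp only [map_mul, map_inv₀, map_add, map_natCast, map_ofNat]
  rw [h1, h4, h2]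
  ring

variable (m : ℕ) [NeZero m] (M : Type) [Field M] [NumberField M]
    [IsCyclotomicExtension {m} ℚ M] (F : IntermediateField ℚ M)

theorem rqP_conj : conj (rqP m M F) = (-1) ^ (Module.finrank ℚ F) * rqP m M F := by
  unfold rqP
  rw [map_prod, Finset.prod_congr rfl fun χ _ => rq_WW_conj m χ, Finset.prod_neg, card_chars m M F,
    b3_prod_comp m M F cj (fun χ => WW χ)]

/-- the exponent of a root of unity -/
theorem rq_root (j : M →ₐ[ℚ] ℂ) (σ : ℂ ≃+* ℂ) (g : Gal(M/ℚ)) (hg : ∀ x, σ (j x) = j (g x)) (η : ℂ)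
    (hη : η ^ m = 1) :
    σ η = η ^ ((IsCyclotomicExtension.Rat.galEquivZMod m M g : (ZMod m)ˣ) : ZMod m).val := by
  obtain ⟨z, hz⟩ := IsCyclotomicExtension.exists_isPrimitiveRoot ℚ M (Set.mem_singleton m)
    (NeZero.ne m)
  have hz' : IsPrimitiveRoot (j z) m := hz.map_of_injective j.injective
  obtain ⟨k, -, hk⟩ := hz'.eq_pow_of_pow_eq_one hη
  rw [← hk, map_pow, hg, IsCyclotomicExtension.Rat.galEquivZMod_apply_of_pow_eq m M g hz.pow_eq_one,
    map_pow, ← pow_mul, ← pow_mul, mul_comm]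

theorem rq_T (hm : GoodLevel m) (hmodd : Odd m) : ∃ δ : ℂ, δ ^ 2 = (discr F : ℂ) ∧
    ∀ σ : ℂ ≃+* ℂ, σ w = w → σ (rqP m M F * δ) = rqP m M F * δ := by
  have : IsGalois ℚ M := IsCyclotomicExtension.isGalois {m} ℚ M
  obtain ⟨δ, hδ, hδs⟩ := rq_delta M F
  refine ⟨δ, hδ, fun σ hσ => ?_⟩
  obtain ⟨u, hu⟩ := rq_exists m (NeZero.ne m) σ hσ
  let s : ℂ ≃ₐ[ℚ] ℂ := AlgEquiv.ofRingEquiv (f := σ) (fun q => by simp)
  let j : M →ₐ[ℚ] ℂ := IsAlgClosed.lift
  -- the restriction of `σ` to `M`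
  obtain ⟨g, hg⟩ : ∃ g : Gal(M/ℚ), ∀ x, s (j x) = j (g x) := by
    let _ : Algebra M ℂ := (j : M →+* ℂ).toAlgebra
    have : IsScalarTower ℚ M ℂ := IsScalarTower.of_algebraMap_eq fun q => (j.commutes q).symm
    let ψ : M →ₐ[ℚ] ℂ := (s : ℂ →ₐ[ℚ] ℂ).comp j
    exact ⟨ψ.restrictNormal' M, fun x => (ψ.restrictNormal_commutes M x).symm⟩
  have h1 := rqE_eq m M F hm σ hσ u hu (IsCyclotomicExtension.Rat.galEquivZMod m M g)
    (rq_root m M j σ g hg)
  have h2 := rq_sign m M F j s g hg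
  have h3 := rq_P_gal m hmodd M F σ u hu
  have h4 : σ δ = rqE m M F
      ((IsCyclotomicExtension.Rat.galEquivZMod m M g : (ZMod m)ˣ) : ZMod m) * δ := by
    rw [← h2]
    exact hδs s
  rw [h1] at h3
  rw [map_mul, h4]
  linear_combination δ * h3

end CM27

end

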