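import Pool.Agent.MP_9ab903_nt.RQ.A6
import Pool.Agent.MP_9ab903_nt.Assembly

/-!
# [RQ] the quotient is rational
-/

set_option autoImplicit false

open scoped ComplexConjugate
open Polynomial NumberField IsDedekindDomain
open scoped Classical

namespace CM27

theorem rq_fixed_all (X : ℂ) (hreal : conj X = X) (h : ∀ σ : ℂ ≃+* ℂ, σ w = w → σ X = X) :
    ∀ σ : ℂ ≃+* ℂ, σ X = X := by
  intro σ
  have hx : σ w * σ w = -1 - σ w := by
    rw [← map_mul, w_sq, map_sub, map_neg, map_one]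
  have hwc : conj w = -1 - w := by
    apply Complex.ext
    · rw [Complex.conj_re, Complex.sub_re, Complex.neg_re, Complex.one_re, w_re]; norm_num
    · rw [Complex.conj_im, Complex.sub_im, Complex.neg_im, Complex.one_im]; ring
  rcases a7_w_cases (σ w) hx with h1 | h1
  · exact h σ h1
  · have h2 := h (cj.trans σ) (by
      show σ (conj w) = w
      rw [hwc, map_sub, map_neg, map_one, h1, hwc]
      ring)
    have h3 : (cj.trans σ) X = σ (conj X) := rfl
    rw [h3, hreal] at h2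
    exact h2

/-- The analytic side, with a rational quotient. -/
theorem analytic_rational (m : ℕ) [NeZero m] (hm : GoodLevel m) (M : Type) [Field M]
    [NumberField M] [IsCyclotomicExtension {m} ℚ M] (F : IntermediateField ℚ M) (n : ℕ)
    (h : Module.finrank ℚ F = 2 ^ n) :
    ∃ Lm : ℂ → ℂ, Differentiable ℂ Lm ∧
      (∀ s : ℂ, 3 / 2 < s.re → LSeriesSummable (fun k => ((E F).LFunction k : ℂ)) s ∧
        Lm s = (E F).LSeries s) ∧ Lm 1 ≠ 0 ∧
      ∃ q : ℚ, q ≠ 0 ∧ padicValRat 2 q = 0 ∧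
        Lm 1 * ((√|(discr F : ℝ)| : ℝ) : ℂ) = q * (period F : ℂ) := by
  have key : ∀ χ ∈ chars m F, ∃ Φ : ℂ → ℂ, Differentiable ℂ Φ ∧
      (∀ s : ℂ, 3 / 2 < s.re → LSeriesSummable (fun k => tw χ k) s ∧
        Φ s = LSeries (fun k => tw χ k) s) ∧ Φ 1 = - (OmC * WW χ) := by
    intro χ hχ
    have h3 : GoodLevel χ.conductor := hm.of_dvd χ.conductor_dvd_level
    have h4 : (fun k => tw χ k) = coef χ.primitiveCharacter := by
      funext k
      rw [tw_apply, pval, coef]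
    obtain ⟨Φ, hΦ, hs, -⟩ := G_entire h3.odd χ.primitiveCharacter
    refine ⟨Φ, hΦ, ?_, ?_⟩
    · rw [h4]; exact hs
    · exact G_value hm.odd χ Φ hΦ.differentiableOn fun s hs' => (hs s hs').2
  choose! Φ hΦ1 hΦ2 hΦ3 using key
  have hLC : (fun k => ((E F).LFunction k : ℂ)) = fun k => (∏ χ ∈ chars m F, tw χ) k := by
    funext k
    rw [← LC_apply, LC_eq m hm M F]
  obtain ⟨Lm, hLm1, hLm2, hLm3, q0, hq0, hq1, hq2⟩ := analytic_full m hm M F n h
  set Ψ : ℂ → ℂ := fun s => ∏ χ ∈ chars m F, Φ χ s with hΨ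
  have hΨd : Differentiable ℂ Ψ := by
    have := Differentiable.fun_finsetProd (𝕜 := ℂ) (u := chars m F) (f := Φ) hΦ1
    exact this
  have hΨe : ∀ s : ℂ, 3 / 2 < s.re → Ψ s = (E F).LSeries s := by
    intro s hs
    obtain ⟨h1, h2⟩ := LSeries_prod (chars m F) (fun χ => tw χ) s
      (fun χ hχ => (hΦ2 χ hχ s hs).1)
    have h3 : (E F).LSeries s = LSeries (fun k => ((E F).LFunction k : ℂ)) s := rfl
    rw [h3, hLC, h2]
    exact Finset.prod_congr rfl fun χ hχ => (hΦ2 χ hχ s hs).2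
  have h5 : Lm 1 = Ψ 1 := by
    have hopen : IsOpen HP := isOpen_lt continuous_const Complex.continuous_re
    have a1 : AnalyticOnNhd ℂ Ψ HP := hΨd.differentiableOn.analyticOnNhd hopen
    have a2 : AnalyticOnNhd ℂ Lm HP := hLm1.differentiableOn.analyticOnNhd hopen
    have hconv : IsPreconnected HP := (convex_halfSpace_re_gt (1 / 2)).isPreconnected
    have hmem : (2 : ℂ) ∈ HP := by
      show (1 / 2 : ℝ) < (2 : ℂ).re
      norm_num
    have h1mem : (1 : ℂ) ∈ HP := by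
      show (1 / 2 : ℝ) < (1 : ℂ).re
      norm_num
    refine a2.eqOn_of_preconnected_of_eventuallyEq a1 hconv hmem ?_ h1mem
    have h1 : {s : ℂ | 3 / 2 < s.re} ∈ nhds (2 : ℂ) :=
      (isOpen_lt continuous_const Complex.continuous_re).mem_nhds (by
        show (3 / 2 : ℝ) < (2 : ℂ).re
        norm_num)
    filter_upwards [h1] with t ht
    rw [(hLm2 t ht).2, hΨe t ht]
  set N := Module.finrank ℚ F with hN
  have hval : Lm 1 = (-OmC) ^ N * rqP m M F := by
    have h1 : Ψ 1 = ∏ χ ∈ chars m F, -(OmC * WW χ) := Finset.prod_congr rfl hΦ3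
    rw [h5, h1]
    have h2 : ∀ χ ∈ chars m F, -(OmC * WW χ) = -OmC * WW χ := fun χ _ => by ring
    rw [Finset.prod_congr rfl h2, Finset.prod_mul_distrib, Finset.prod_const, card_chars]
    rfl
  set r1 := InfinitePlace.nrRealPlaces F with hr1
  set r2 := InfinitePlace.nrComplexPlaces F with hr2
  have hrank : r1 + 2 * r2 = N := InfinitePlace.card_add_two_mul_card_eq_rank F
  have hOm : (Om : ℂ) ≠ 0 := by exact_mod_cast Om_pos.ne'
  have h3C : ((√3 : ℝ) : ℂ) ≠ 0 := by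
    have : (√3 : ℝ) ≠ 0 := by positivity
    exact_mod_cast this
  have h3sq : ((√3 : ℝ) : ℂ) ^ 2 = 3 := by
    rw [← Complex.ofReal_pow, Real.sq_sqrt (by norm_num)]
    norm_num
  have hper : (period F : ℂ) = ((√3 : ℝ) : ℂ) ^ (r1 + r2) * (Om : ℂ) ^ N := by
    have hp : period F = OmR ^ r1 * OmCC ^ r2 := by
      rw [period, Finset.prod_ite, Finset.prod_const, Finset.prod_const]
      congr 2
      · rw [hr1, InfinitePlace.nrRealPlaces, Fintype.card_subtype]
      · rw [hr2, InfinitePlace.nrComplexPlaces, Fintype.card_subtype]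
        congr 1
        ext v
        simp [InfinitePlace.not_isReal_iff_isComplex]
    rw [hp, OmR_eq, OmCC_eq, ← hrank]
    push_cast
    ring
  have hper0 : (period F : ℂ) ≠ 0 := by
    rw [hper]
    exact mul_ne_zero (pow_ne_zero _ h3C) (pow_ne_zero _ hOm)
  obtain ⟨D', hD'⟩ : ∃ D' : ℂ, D' = ((√|(discr F : ℝ)| : ℝ) : ℂ) := ⟨_, rfl⟩
  have hD'2 : D' ^ 2 = (-1) ^ r2 * (discr F : ℂ) := by
    rw [hD', ← Complex.ofReal_pow, Real.sq_sqrt (abs_nonneg _)]
    have h1 : |discr F| = (discr F).sign * discr F := by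
      rw [Int.sign_mul_self, Int.natCast_natAbs]
    rw [sign_discr] at h1
    have h2 : |(discr F : ℝ)| = ((|discr F| : ℤ) : ℝ) := by rw [Int.cast_abs]
    rw [h2, h1]
    push_cast
    rfl
  obtain ⟨δ, hδ, hδσ⟩ := rq_T m M F hm hm.odd
  obtain ⟨X, hX⟩ : ∃ X : ℂ, X = Lm 1 * D' / (period F : ℂ) := ⟨_, rfl⟩
  have hw : (2 * w + 1) ^ 2 = -3 := by
    have := w_sq
    linear_combination 4 * this
  have hw0 : (2 * w + 1 : ℂ) ≠ 0 := by
    intro h0
    rw [h0] at hw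
    norm_num at hw
  have hOmC : (-OmC) ^ 2 = -(Om : ℂ) ^ 2 := by
    rw [neg_sq, OmC, mul_pow, Complex.I_sq]
    ring
  -- the square
  have hXsq : (X * (2 * w + 1) ^ (r1 + r2)) ^ 2 = (rqP m M F * δ) ^ 2 := by
    have e1 : (X * (period F : ℂ)) = (-OmC) ^ N * rqP m M F * D' := by
      rw [hX, hval]
      field_simp
    have e2 : (X * (period F : ℂ)) ^ 2 * ((2 * w + 1) ^ (r1 + r2)) ^ 2 =
        ((-OmC) ^ N) ^ 2 * (rqP m M F) ^ 2 * D' ^ 2 * ((2 * w + 1) ^ (r1 + r2)) ^ 2 := by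
      rw [e1]
      ring
    have e3 : ((-OmC) ^ N) ^ 2 = (-1) ^ N * ((Om : ℂ) ^ N) ^ 2 := by
      rw [← pow_mul, mul_comm N 2, pow_mul, hOmC, neg_pow, ← pow_mul, ← pow_mul, mul_comm 2 N]
    have e4 : ((2 * w + 1) ^ (r1 + r2)) ^ 2 = (-1) ^ (r1 + r2) * (((√3 : ℝ) : ℂ) ^ (r1 + r2)) ^ 2 := by
      rw [← pow_mul, mul_comm (r1 + r2) 2, pow_mul, hw, ← pow_mul, mul_comm (r1 + r2) 2, pow_mul,
        h3sq, ← mul_pow]
      norm_num
    have e5 : (-1 : ℂ) ^ N * (-1) ^ r2 * (-1) ^ (r1 + r2) = 1 := by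
      rw [← hrank, ← pow_add, ← pow_add]
      exact Even.neg_one_pow ⟨r1 + 2 * r2, by ring⟩
    have hne : (((√3 : ℝ) : ℂ) ^ (r1 + r2) * (Om : ℂ) ^ N) ^ 2 ≠ 0 :=
      pow_ne_zero _ (mul_ne_zero (pow_ne_zero _ h3C) (pow_ne_zero _ hOm))
    apply mul_right_cancel₀ hne
    calc (X * (2 * w + 1) ^ (r1 + r2)) ^ 2 * (((√3 : ℝ) : ℂ) ^ (r1 + r2) * (Om : ℂ) ^ N) ^ 2
        = (X * (period F : ℂ)) ^ 2 * ((2 * w + 1) ^ (r1 + r2)) ^ 2 := by rw [hper]; ring
      _ = ((-1) ^ N * (-1) ^ r2 * (-1) ^ (r1 + r2)) * ((rqP m M F) ^ 2 * (discr F : ℂ)) *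
          (((√3 : ℝ) : ℂ) ^ (r1 + r2) * (Om : ℂ) ^ N) ^ 2 := by
        rw [e2, e3, e4, hD'2]
        ring
      _ = (rqP m M F * δ) ^ 2 * (((√3 : ℝ) : ℂ) ^ (r1 + r2) * (Om : ℂ) ^ N) ^ 2 := by
        rw [e5, ← hδ]
        ring
  -- `X` is fixed by the automorphisms which fix `w`
  have hfix : ∀ σ : ℂ ≃+* ℂ, σ w = w → σ X = X := by
    intro σ hσ
    have h1 := hδσ σ hσ
    have h2 : σ ((2 * w + 1) ^ (r1 + r2)) = (2 * w + 1) ^ (r1 + r2) := by
      simp only [map_mul, map_pow, map_add, map_one, map_ofNat, hσ]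
    have h3 : σ (X * (2 * w + 1) ^ (r1 + r2)) = X * (2 * w + 1) ^ (r1 + r2) := by
      rcases sq_eq_sq_iff_eq_or_eq_neg.1 hXsq with h4 | h4
      · rw [h4, h1]
      · rw [h4, map_neg, h1]
    rw [map_mul, h2] at h3
    exact mul_right_cancel₀ (pow_ne_zero _ hw0) h3
  -- `X` is real
  have hreal : conj X = X := by
    have c1 : conj (-OmC) = OmC := by
      rw [OmC, map_neg, map_mul, Complex.conj_I, Complex.conj_ofReal]
      ring
    have c2 : (OmC) ^ N = (-1) ^ N * (-OmC) ^ N := by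
      rw [← mul_pow]
      congr 1
      ring
    rw [hX, map_div₀, map_mul, hval, map_mul, map_pow, c1, rqP_conj, hD', Complex.conj_ofReal,
      Complex.conj_ofReal, c2]
    have c3 : (-1 : ℂ) ^ N * (-1) ^ N = 1 := by
      rw [← pow_add]
      exact Even.neg_one_pow ⟨N, rfl⟩
    rw [← hN]
    have c4 : (-1 : ℂ) ^ N * (-OmC) ^ N * ((-1) ^ N * rqP m M F) =
        ((-1 : ℂ) ^ N * (-1) ^ N) * ((-OmC) ^ N * rqP m M F) := by ring
    rw [c4, c3, one_mul]
  have hX2 : X ^ 2 = q0 * ((discr F).natAbs : ℂ) := by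
    have h1 : D' ^ 2 = ((discr F).natAbs : ℂ) := by
      rw [hD', ← Complex.ofReal_pow, Real.sq_sqrt (abs_nonneg _)]
      have h1 : |(discr F : ℝ)| = (((discr F).natAbs : ℕ) : ℝ) := by
        rw [Nat.cast_natAbs, Int.cast_abs]
      rw [h1, Complex.ofReal_natCast]
    rw [hX, div_pow, mul_pow, hq2, h1]
    field_simp
  have halg : IsAlgebraic ℚ X := by
    refine IsAlgebraic.of_pow (n := 2) (by norm_num) ?_
    rw [hX2]
    have : ((q0 * ((discr F).natAbs : ℚ) : ℚ) : ℂ) = q0 * ((discr F).natAbs : ℂ) := by push_cast; rfl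
    rw [← this]
    exact isAlgebraic_algebraMap (R := ℚ) (A := ℂ) _
  obtain ⟨q, hq⟩ := fixed_rat X halg (rq_fixed_all X hreal hfix)
  have hodd' : Odd (discr F).natAbs := disc_odd m hm.odd M F
  have hD : ((discr F).natAbs : ℚ) ≠ 0 := by
    have : (discr F).natAbs ≠ 0 := by
      intro h0
      rw [h0] at hodd'
      exact absurd hodd' (by decide)
    exact_mod_cast this
  have hqsq : q ^ 2 = q0 * ((discr F).natAbs : ℚ) := by
    rw [← hq] at hX2
    exact_mod_cast hX2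
  have hqne : q ≠ 0 := by
    rintro rfl
    have : (q0 * ((discr F).natAbs : ℚ)) = 0 := by rw [← hqsq]; ring
    exact mul_ne_zero hq0 hD this
  refine ⟨Lm, hLm1, hLm2, hLm3, q, hqne, ?_, ?_⟩
  · have h1 : padicValRat 2 (q ^ 2) = 0 := by
      rw [hqsq, padicValRat.mul hq0 hD, hq1, padic_two_odd_nat _ hodd']
      rfl
    rw [padicValRat.pow] at h1
    push_cast at h1
    omega
  · rw [hq, hX, ← hD']
    field_simp

end CM27
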